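import Pool.Agent.BEQ.Stmts
import Pool.Agent.Helper53_BEL.Fin

/-!
# Squad BEQ (MP_be01ff_an), row DNS: density
-/

set_option autoImplicit false

namespace Pool.Agent.BEQ.H49

open Set Filter Topology MeasureTheory
open scoped InnerProductSpace ENNReal
open Pool.Agent Pool.Agent.BE01 Pool.Agent.BEL Pool.Agent.BEH Pool.Agent.BEG Pool.Agent.BEQ

noncomputable section

theorem dns_term {a b a0 ε : ℝ} (h0 : 0 < a0) (h0a : a0 ≤ a) (hb : 0 < b) (hε : 0 ≤ ε)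
    (hab : b ≤ a + ε) : a⁻¹ - b⁻¹ ≤ ε / a0 ^ 2 := by
  have ha : 0 < a := lt_of_lt_of_le h0 h0a
  by_cases h : b ≤ a
  · have h1 : a⁻¹ ≤ b⁻¹ := by
      rw [inv_le_inv₀ ha hb]
      exact h
    have h2 : 0 ≤ ε / a0 ^ 2 := by positivity
    linarith
  · rw [not_le] at h
    have h1 : a⁻¹ - b⁻¹ = (b - a) / (a * b) := by
      field_simp
    rw [h1]
    apply div_le_div₀ hε (by linarith) (by positivity)
    rw [pow_two]
    exact mul_le_mul h0a (by linarith) h0.le ha.le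

/-- Row DNS. -/
theorem dns (tex : TexStmt) (mot : MotStmt) (nea : NeaStmt) (deg : DegStmt) (kyf : KyfStmt) :
    DnsStmt := by
  intro d hd D Ω ι b e om M δ ε hD hΩD hok hconn hδ hε
  have hd0 : 0 < d := by omega
  have hpos := hok.spec.pos
  obtain ⟨L, hL⟩ : ∃ L : ℕ, 4 / ε + 1 ≤ om L := by
    obtain ⟨L, hL⟩ := (hok.spec.top.eventually_ge_atTop (4 / ε + 1)).exists
    exact ⟨L, hL⟩
  have h4ε : 0 < 4 / ε := by positivity
  have hLinv : (om L ^ 2)⁻¹ ≤ ε / 4 := by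
    have h1 : 4 / ε ≤ om L ^ 2 := by nlinarith
    have h2 : (om L ^ 2)⁻¹ ≤ (4 / ε)⁻¹ := by
      rw [inv_le_inv₀ (by have := hpos L; positivity) h4ε]
      exact h1
    rw [inv_div] at h2
    exact h2
  have hom0 := hpos 0
  obtain ⟨ε', hε'⟩ : ∃ ε' : ℝ, ε' = ε * (om 0 ^ 2) ^ 2 / (4 * ((L : ℝ) + 1)) := ⟨_, rfl⟩
  have hL0 : (0 : ℝ) ≤ L := Nat.cast_nonneg L
  have hε'0 : 0 < ε' := by
    rw [hε']
    positivity
  obtain ⟨J, x, r, hball, hdisj, hsum, hconn', hdom', hall⟩ :=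
    deg d hd Ω ι b e om M L δ ε' hok hconn hδ hε'0
  refine ⟨J, x, r, hball, hdisj, hsum, hconn', hdom', ?_, ?_⟩
  · obtain ⟨ι', hemb', hgrf'⟩ := Pool.Agent.BEL.H53.empA d (Hl Ω x r) hd0 hdom'
    obtain ⟨b', e', om', hspec'⟩ := Pool.Agent.BEL.H53.eigA d (Hl Ω x r) ι' hd0 hdom' hemb'
    have hok' : Ok (Hl Ω x r) ι' b' e' om' := ⟨hdom', hemb', hgrf', hspec'⟩
    have hsub : Hl Ω x r ⊆ Ω := Set.diff_subset
    obtain ⟨T, v, hT, hTd⟩ := tex d D Ω ι b e om hd0 hD hΩD hok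
    obtain ⟨T', v', hT', hTd'⟩ := tex d D (Hl Ω x r) ι' b' e' om' hd0 hD (hsub.trans hΩD) hok'
    have hmot := mot d D Ω (Hl Ω x r) T T' hd0 hD hok.dom hdom' hΩD hsub hT hT'
    obtain ⟨-, -, hev⟩ := hall ι' b' e' om' hok'
    rw [nea d D Ω (Hl Ω x r) T T' ε hd0 hD hok.dom hdom' hΩD (hsub.trans hΩD) hT hT' hε.le]
    have hs : ∑ k ∈ Finset.range L, ((om k ^ 2)⁻¹ - (om' k ^ 2)⁻¹) ≤ ε / 4 := by
      have h1 : ∀ k ∈ Finset.range L, (om k ^ 2)⁻¹ - (om' k ^ 2)⁻¹ ≤ ε' / (om 0 ^ 2) ^ 2 := by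
        intro k hk
        have h2 := hev k (Finset.mem_range.1 hk)
        have h3 : om 0 ≤ om k := hok.spec.mono (Nat.zero_le k)
        have h4 : om 0 ^ 2 ≤ om k ^ 2 := pow_le_pow_left₀ hom0.le h3 2
        have h5 := hspec'.pos k
        exact dns_term (by positivity) h4 (by positivity) hε'0.le h2
      refine (Finset.sum_le_card_nsmul _ _ _ h1).trans ?_
      rw [Finset.card_range, nsmul_eq_mul, hε', div_right_comm, mul_div_assoc]
      have h6 : ε * ((om 0 ^ 2) ^ 2 / (om 0 ^ 2) ^ 2) = ε := by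
        rw [div_self (by positivity), mul_one]
      rw [h6, mul_div_assoc', div_le_div_iff₀ (by positivity) (by norm_num)]
      nlinarith
    have hk := kyf (Lp ℝ 2 (mu D)) T T' v v' (fun k => (om k ^ 2)⁻¹) (fun k => (om' k ^ 2)⁻¹)
      L (ε / 4) hTd hTd' hmot hs
    have h7 : 2 * ((om L ^ 2)⁻¹ + ε / 4) ≤ ε := by linarith
    exact hk.trans h7
  · intro ι' b' e' om' hok'
    exact ⟨(hall ι' b' e' om' hok').1, (hall ι' b' e' om' hok').2.1⟩

end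

end Pool.Agent.BEQ.H49
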