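import Pool.Agent.BEQ.Stmts
import Pool.Agent.BEO.Stmts
import Pool.Agent.Helper53_BEL.Fin

/-!
# Squad BEQ (MP_be01ff_an), row MOT: monotonicity
-/

set_option autoImplicit false

namespace Pool.Agent.BEQ.H49

open Set Filter Topology MeasureTheory
open scoped InnerProductSpace ENNReal
open Pool.Agent Pool.Agent.BE01 Pool.Agent.BEL Pool.Agent.BEH Pool.Agent.BEG Pool.Agent.BEQ

noncomputable section

variable {d : ℕ}

theorem int_ind {D Ω : Set (En d)} (hΩ : MeasurableSet Ω) (hs : Ω ⊆ D) (g : En d → ℝ) :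
    ∫ x, Ω.indicator g x ∂(mu D) = ∫ x, g x ∂(mu Ω) := by
  unfold mu
  rw [integral_indicator hΩ, Measure.restrict_restrict hΩ, Set.inter_eq_left.2 hs]

theorem form {D Ω : Set (En d)} (hΩ : MeasurableSet Ω) (hs : Ω ⊆ D)
    (t h : Lp ℝ 2 (mu D)) (u : Lp ℝ 2 (mu Ω)) (ht : t =ᵐ[mu D] Ω.indicator u) :
    ⟪t, h⟫_ℝ = ∫ x, h x * u x ∂(mu Ω) := by
  rw [L2.inner_def, ← int_ind hΩ hs (fun x => h x * u x)]
  refine integral_congr_ae ?_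
  filter_upwards [ht] with x hx
  rw [hx]
  by_cases hx' : x ∈ Ω
  · rw [Set.indicator_of_mem hx', Set.indicator_of_mem hx']
    simp only [RCLike.inner_apply, conj_trivial]
  · rw [Set.indicator_of_notMem hx', Set.indicator_of_notMem hx', inner_zero_left]

theorem inn (Ω : Set (En d)) (F G : Lp (En d) 2 (mu Ω)) :
    ∫ x, ⟪F x, G x⟫_ℝ ∂(mu Ω) = ⟪F, G⟫_ℝ := (L2.inner_def F G).symm

theorem ae_sub {Ω Ω' : Set (En d)} (hm' : MeasurableSet Ω') (hs : Ω' ⊆ Ω) (a b : En d → ℝ)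
    (h : a =ᵐ[mu Ω'] b) : ∀ᵐ x ∂(mu Ω), x ∈ Ω' → a x = b x := by
  have h2 : mu Ω' = (mu Ω).restrict Ω' := by
    unfold mu
    rw [Measure.restrict_restrict hm', Set.inter_eq_left.2 hs]
  rw [h2] at h
  exact (ae_restrict_iff' hm').1 h

/-- Row MOT. -/
theorem mot (weo : Pool.Agent.BEO.WeoStmt) (ext : Pool.Agent.BEH.ExtStmt) : MotStmt := by
  intro d D Ω Ω' T T' hd hD hΩ hΩ' hΩD hΩΩ hT hT' h
  obtain ⟨f, u, F, hf, hu, hW, hTh⟩ := hT h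
  obtain ⟨f', u', F', hf', hu', hW', hTh'⟩ := hT' h
  have hm : MeasurableSet Ω := hΩ.1.measurableSet
  have hm' : MeasurableSet Ω' := hΩ'.1.measurableSet
  have e1 : ⟪T h, h⟫_ℝ = ⟪F, F⟫_ℝ := by
    rw [form hm hΩD (T h) h u hTh, ← inn, weo d Ω u f F F hΩ hW hu]
    refine integral_congr_ae ?_
    filter_upwards [hf] with x hx
    rw [hx]
  have e2 : ⟪T' h, h⟫_ℝ = ⟪F', F'⟫_ℝ := by
    rw [form hm' (hΩΩ.trans hΩD) (T' h) h u' hTh', ← inn, weo d Ω' u' f' F' F' hΩ' hW' hu']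
    refine integral_congr_ae ?_
    filter_upwards [hf'] with x hx
    rw [hx]
  obtain ⟨ι, hemb, hgrf⟩ := Pool.Agent.BEL.H53.empA d Ω hd hΩ
  obtain ⟨ι', hemb', hgrf'⟩ := Pool.Agent.BEL.H53.empA d Ω' hd hΩ'
  obtain ⟨E, Fx, hE, hFx, hEF⟩ := ext d Ω Ω' ι ι' hΩ hΩ' hΩΩ hemb hemb'
  obtain ⟨hG', hu'e⟩ := (hgrf' u' F').1 hu'
  obtain ⟨G, hG⟩ : ∃ G : VV Ω, G = Fx ⟨F', hG'⟩ := ⟨_, rfl⟩
  have hmem : (E u', (G : Lp (En d) 2 (mu Ω))) ∈ H10 Ω := by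
    rw [hgrf]
    refine ⟨G.2, ?_⟩
    rw [hu'e, ← hEF, hG]
  have hnG : ‖(G : Lp (En d) 2 (mu Ω))‖ = ‖F'‖ := by
    have h1 : ‖G‖ = ‖(⟨F', hG'⟩ : VV Ω')‖ := by
      rw [hG]
      exact Fx.norm_map _
    exact h1
  have e3 : ⟪F, (G : Lp (En d) 2 (mu Ω))⟫_ℝ = ⟪F', F'⟫_ℝ := by
    rw [← inn, weo d Ω (E u') f F G hΩ hW hmem, ← inn, weo d Ω' u' f' F' F' hΩ' hW' hu',
      ← int_ind hm' hΩΩ (fun x => f' x * u' x)]
    have h1 : ∀ᵐ x ∂(mu Ω), x ∈ Ω' → f' x = h x := ae_sub hm' hΩΩ f' h hf'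
    refine integral_congr_ae ?_
    filter_upwards [hf, hE u', h1] with x hx1 hx2 hx3
    rw [hx1, hx2]
    by_cases hx' : x ∈ Ω'
    · rw [Set.indicator_of_mem hx', Set.indicator_of_mem hx', hx3 hx']
    · rw [Set.indicator_of_notMem hx', Set.indicator_of_notMem hx', mul_zero]
  rw [e1, e2]
  have h4 := real_inner_le_norm F (G : Lp (En d) 2 (mu Ω))
  rw [e3, hnG, real_inner_self_eq_norm_sq] at h4
  rw [real_inner_self_eq_norm_sq, real_inner_self_eq_norm_sq]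
  have h5 := norm_nonneg F
  have h6 := norm_nonneg F'
  nlinarith [sq_nonneg (‖F‖ - ‖F'‖)]

end

end Pool.Agent.BEQ.H49
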